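import Pool.Agent.H72.PER.All3
import Pool.Agent.H34.HR.DSSA

/-!
# The half rank theorem for logarithms of algebraic numbers, with polynomial loss

Every polynomial is the determinant of a square matrix whose entries are polynomials of degree at
most one.  So the question is whether for all square pencils `A(X) = A_0 + X_1 A_1 + ... + X_n A_n`
of order `N` with nonzero determinant the determinant of `A(log α_1, ..., log α_n)` is at least
`H ^ (-C)`, where `H` bounds the coefficients.  We prove that some minor of `A(log α)` of order at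
least `N / 2` is at least `H ^ (-C)` in absolute value (`square` below).  More generally, for all
pencils `A` of `l × c` matrices with algebraic coefficients of bounded degree and height at most `H`
and all positive integers `p, q` some minor of order at least
`min (p (l - dim V) + q dim (V A)) / (p + q)` is at least `H ^ (-C)`, the minimum over all subspaces
`V`, where `V A = ∑ V A_k`.  For `p = q = 1` the minimum is the noncommutative rank of the pencil;
for `p = c, q = l` and semistable pencils we get the order `l c / (l + c)`.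
-/

set_option autoImplicit false

namespace Pool.Agent.Results.MP_3cf473_nt.HalfRank

open Module

/-- Let `z 0, ..., z (n-1)` be complex numbers with algebraic exponentials and let `K` be a set of
indices which do not occur in linear relations of the `z k` with integer coefficients (for instance
all indices if `z 0, ..., z (n-1)` are linearly independent over `ℚ`).  For all `δ`, `l`, `c` and
positive integers `p, q` there is `C > 0` such that for every real `H ≥ 2` and all `l × c` matrices
`A 0, ..., A n` whose entries are algebraic numbers of degree at most `δ` and height at most `H` the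
following holds: if `N ≤ p (l - dim V) + q dim U` for all subspaces `V` of `ℂ ^ l` and `U` of
`ℂ ^ c` such that `V` is sent into `U` by `A 0` and by all `A (k+1)`, `k ∈ K`, then some minor of
order `m ≥ N / (p + q)` of `A 0 + ∑ z k • A (k+1)` has absolute value at least `H ^ (-C)`. -/
theorem result (n : ℕ) (z : Fin n → ℂ) (halg : ∀ k, IsAlgebraic ℚ (Complex.exp (z k)))
    (K : Set (Fin n)) (hK : ∀ m : Fin n → ℤ, ∑ k, (m k : ℂ) * z k = 0 → ∀ k ∈ K, m k = 0)
    (δ l c p q : ℕ) (hp : 0 < p) (hq : 0 < q) :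
    ∃ C : ℝ, 0 < C ∧ ∀ H : ℝ, 2 ≤ H → ∀ A : Fin (n + 1) → Matrix (Fin l) (Fin c) ℂ,
      (∀ k i j, ∃ f : Polynomial ℤ, f ≠ 0 ∧ f.natDegree ≤ δ ∧
        (∀ s, |((f.coeff s : ℤ) : ℝ)| ≤ H) ∧ Polynomial.aeval (A k i j) f = 0) →
      ∀ N : ℕ, (∀ (V : Submodule ℂ (Fin l → ℂ)) (U : Submodule ℂ (Fin c → ℂ)),
        (∀ y ∈ V, Matrix.vecMul y (A 0) ∈ U ∧ ∀ k ∈ K, Matrix.vecMul y (A k.succ) ∈ U) →
        N ≤ p * (l - finrank ℂ V) + q * finrank ℂ U) →
      ∃ (m : ℕ) (I : Fin m → Fin l) (J : Fin m → Fin c), N ≤ (p + q) * m ∧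
        H ^ (-C) ≤ ‖((A 0 + ∑ k : Fin n, z k • A k.succ).submatrix I J).det‖ := by
  obtain ⟨C, hC, h⟩ := Pool.Agent.H72.PER.halfRankPlus n z halg K hK δ l c p q hp hq
  refine ⟨C, hC, fun H hH A hA N hN => ?_⟩
  obtain ⟨m, I, J, h1, h2⟩ := h H hH A hA N (fun V U hVU => hN V U fun y hy =>
    ⟨hVU 0 (Or.inl rfl) y hy, fun k hk => hVU k.succ (Or.inr ⟨k, hk, rfl⟩) y hy⟩)
  refine ⟨m, I, J, h1, ?_⟩
  have e1 : Pool.Agent.H72.HRA.MvC z A = A 0 + ∑ k : Fin n, z k • A k.succ := by
    funext i j
    simp [Pool.Agent.H72.HRA.MvC, Matrix.sum_apply]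
  rw [e1] at h2
  have hpos : (0 : ℝ) < H ^ C := Real.rpow_pos_of_pos (by linarith) C
  rw [Real.rpow_neg (by linarith), inv_le_iff_one_le_mul₀ hpos, mul_comm]
  exact h2

open MvPolynomial in
/-- The case of square pencils: if the determinant of `A 0 + ∑_{k ∈ K} X_k A (k+1)` is not the zero
polynomial, then some minor of order at least `N / 2` of `A 0 + ∑ z k • A (k+1)` has absolute value
at least `H ^ (-B)`. -/
theorem square (n : ℕ) (z : Fin n → ℂ) (halg : ∀ k, IsAlgebraic ℚ (Complex.exp (z k)))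
    (K : Set (Fin n)) [DecidablePred (· ∈ K)]
    (hK : ∀ m : Fin n → ℤ, ∑ k, (m k : ℂ) * z k = 0 → ∀ k ∈ K, m k = 0)
    (δ N : ℕ) :
    ∃ B : ℝ, 0 < B ∧ ∀ H : ℝ, 2 ≤ H → ∀ A : Fin (n + 1) → Matrix (Fin N) (Fin N) ℂ,
      (∀ k i j, ∃ f : Polynomial ℤ, f ≠ 0 ∧ f.natDegree ≤ δ ∧
        (∀ s, |((f.coeff s : ℤ) : ℝ)| ≤ H) ∧ Polynomial.aeval (A k i j) f = 0) →
      (Matrix.of (fun i j => (C (A 0 i j) : MvPolynomial (Fin n) ℂ) +
        ∑ k : Fin n, if k ∈ K then X k * C (A k.succ i j) else 0)).det ≠ 0 →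
      ∃ (m : ℕ) (I : Fin m → Fin N) (J : Fin m → Fin N), N ≤ 2 * m ∧
        H ^ (-B) ≤ ‖((A 0 + ∑ k : Fin n, z k • A k.succ).submatrix I J).det‖ := by
  classical
  obtain ⟨B, hB, h⟩ := result n z halg K hK δ N N 1 1 one_pos one_pos
  refine ⟨B, hB, fun H hH A hA hdet => ?_⟩
  have hs := Pool.Agent.H34.HR.pf_DSSA n N K A (by convert hdet)
  obtain ⟨m, I, J, h1, h2⟩ := h H hH A hA N (fun V U hVU => by
    have h3 := hs U
    have h4 : finrank ℂ V ≤ finrank ℂ (Pool.Agent.H72.HRA.XiC K A U) := by
      apply Submodule.finrank_mono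
      intro y hy
      unfold Pool.Agent.H72.HRA.XiC
      rw [Submodule.mem_inf, Submodule.mem_iInf]
      refine ⟨(hVU y hy).1, fun k => ?_⟩
      rw [Submodule.mem_iInf]
      exact fun hk => (hVU y hy).2 k hk
    rcases Nat.eq_zero_or_pos N with hN | hN
    · omega
    · have h5 := Nat.le_of_mul_le_mul_left h3 hN
      omega)
  exact ⟨m, I, J, h1, h2⟩

end Pool.Agent.Results.MP_3cf473_nt.HalfRank
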