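import Pool.Agent.H72.CLU.Joined

/-!
# The algebraic independence measure for logarithms of the integers of short intervals

For all but `C x ^ (w - s)` of the tuples `M` of integers in `[1, x]` the following holds, relative
to arbitrary complex numbers `ξ 1, ..., ξ r`: for ALL distinct integers `a 1, ..., a n` in the union
of the intervals `[M j, M j + (M j) ^ s]` there is no integer polynomial `P(X, Y)` of total degree at
most `d` with `P(ξ, Y) ≠ 0` and `P(ξ, log a 1, ..., log a n) = 0`; moreover the lower bound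
`H ^ (-C)` of the problem holds at all heights `H` from `max M j` up to `exp (exp ((max M j) ^ s))`,
for all `P` for which `P(ξ, Y)` has a coefficient which is not too small.
For `r = 0` these are all integer polynomials `P ≠ 0`. With `w = n` and `a = M` this contains the
statement for almost all tuples; with `w = 1` it concerns all tuples of distinct integers of one
short interval, for instance `n` consecutive integers.
-/

set_option autoImplicit false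

namespace Pool.Agent.Results.MP_3cf473_nt.PowerSaving

open MvPolynomial

theorem result : ∀ r n w d : ℕ, ∃ s : ℝ, 0 < s ∧ ∀ A : ℝ, ∃ C : ℝ, 0 < C ∧
    ∀ x : ℕ, 1 ≤ x → ∀ ξ : Fin r → ℂ,
    (Set.ncard {M : Fin w → ℕ | (∀ j, 1 ≤ M j ∧ M j ≤ x) ∧
      ∃ a : Fin n → ℕ, Function.Injective a ∧
        (∀ i, ∃ j, M j ≤ a i ∧ (a i : ℝ) ≤ M j + (M j : ℝ) ^ s) ∧
      ∃ P : MvPolynomial (Fin r ⊕ Fin n) ℤ, P.totalDegree ≤ d ∧
        ((aeval (Sum.elim (fun i => MvPolynomial.C (ξ i)) X :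
              Fin r ⊕ Fin n → MvPolynomial (Fin n) ℂ) P ≠ 0 ∧
            aeval (Sum.elim ξ (fun i => ((Real.log (a i) : ℝ) : ℂ))) P = 0) ∨
          ∃ H : ℝ, 2 ≤ H ∧ (∀ j, (M j : ℝ) ≤ H) ∧
            (∃ j, Real.log (Real.log H) ≤ (M j : ℝ) ^ s) ∧ (∀ i, ‖ξ i‖ ≤ H ^ A) ∧
            (∀ e : Fin r ⊕ Fin n →₀ ℕ, |((coeff e P : ℤ) : ℝ)| ≤ H) ∧
            (∃ e : Fin n →₀ ℕ,
              H ^ (-A) ≤ ‖coeff e (aeval (Sum.elim (fun i => MvPolynomial.C (ξ i)) X) P)‖) ∧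
            ‖aeval (Sum.elim ξ (fun i => ((Real.log (a i) : ℝ) : ℂ))) P‖ < H ^ (-C))} : ℝ) ≤
      C * (x : ℝ) ^ ((w : ℝ) - s) := by
  intro r n w d
  obtain ⟨s, hs, h⟩ := Pool.Agent.H72.CLU.joined r n w d
  refine ⟨s, hs, fun A => ?_⟩
  obtain ⟨C, hC, h1⟩ := h A
  refine ⟨C, hC, fun x hx ξ => ?_⟩
  refine le_trans (le_of_eq ?_) (h1 x hx ξ)
  congr 2
  ext M
  constructor
  · rintro ⟨h2, a, ha, hcl, P, p1, ⟨q1, q2⟩ | ⟨H, h3, h4, h5, h6, p2, p3, p4⟩⟩
    · exact ⟨h2, a, ha, hcl, Or.inl fun hno => hno P p1 q1 q2⟩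
    · exact ⟨h2, a, ha, hcl, Or.inr ⟨H, h3, h4, h5, h6, P, p1, p2, p4, p3⟩⟩
  · rintro ⟨h2, a, ha, hcl, hno | ⟨H, h3, h4, h5, h6, P, p1, p2, p4, p3⟩⟩
    · rw [Pool.Agent.H72.PSV.Rel.NoRelation] at hno
      push Not at hno
      obtain ⟨P, p1, q1, q2⟩ := hno
      exact ⟨h2, a, ha, hcl, P, p1, Or.inl ⟨q1, q2⟩⟩
    · exact ⟨h2, a, ha, hcl, P, p1, Or.inr ⟨H, h3, h4, h5, h6, p2, p3, p4⟩⟩

end Pool.Agent.Results.MP_3cf473_nt.PowerSaving
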