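import Pool.Agent.H72.CC.W
import Pool.Agent.H81.CC.All
import Pool.Agent.H81.CC.CCM
import Pool.Agent.H72.GP.All2

/-!
# Fixed tuples of logarithms at all heights, with prescribed branches or a prescribed logarithm

The inequality of the problem in degree `d` holds at all heights for the numbers
`c k * ξ + log (1 + b k / N)`, where `N` is large in terms of `n` and `d` only, the Gaussian
integers `b k = x k + i y k` are small compared with `N`, pairwise distinct and not conjugate, and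
`ξ` is any real or purely imaginary logarithm of an algebraic number.  For `ξ = 2 π i` these are
all branches of the logarithms of the numbers `1 + b k / N`.
-/

set_option autoImplicit false

namespace Pool.Agent.Results.MP_3cf473_nt.PrescribedLogarithm

open MvPolynomial

/-- For all `n` and `d` there are `δ > 0` and `N₁` such that for every real or purely imaginary
`ξ ≠ 0` with `exp ξ` algebraic there is `C > 0` with the following property.  Let `N ≥ N₁`, let
`b k = x k + i y k` (`k < n`) be Gaussian integers with `|x k| ≤ N ^ δ` and `|y k| ≤ N ^ δ`, no two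
of which are equal or conjugate, and let `c k` be integers.  Assume that for every real `b k`
either `b k ≠ 0`, and `ξ` is purely imaginary or `c k = 0`, or `b k = 0`, `c k ≠ 0` and no other
`b j` is real.  Then for all `H ≥ 2`, all `M ≥ 1` with `|c k| ≤ M` for all `k`, and all nonzero
integer polynomials `P` in `n` variables of total degree at most `d` with coefficients of absolute
value at most `H`, the value of `P` at the point `(c k * ξ + log (1 + b k / N))` has absolute value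
at least `(M * N * H) ^ (-C)`. -/
theorem result : ∀ n d : ℕ, ∃ (δ : ℝ) (N₁ : ℕ), 0 < δ ∧
    ∀ ξ : ℂ, ξ ≠ 0 → IsAlgebraic ℚ (Complex.exp ξ) → ξ.re = 0 ∨ ξ.im = 0 → ∃ C : ℝ, 0 < C ∧
    ∀ N : ℕ, N₁ ≤ N → ∀ x y c : Fin n → ℤ,
    (∀ k, |(x k : ℝ)| ≤ (N : ℝ) ^ δ ∧ |(y k : ℝ)| ≤ (N : ℝ) ^ δ) →
    (∀ j k, j ≠ k → x j = x k → y j ≠ y k ∧ y j ≠ - y k) →
    (∀ k, y k = 0 → (x k ≠ 0 ∧ (ξ.re = 0 ∨ c k = 0)) ∨
      (x k = 0 ∧ c k ≠ 0 ∧ ∀ j, j ≠ k → y j ≠ 0)) →
    ∀ H M : ℝ, 2 ≤ H → 1 ≤ M → (∀ k, |(c k : ℝ)| ≤ M) →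
    ∀ P : MvPolynomial (Fin n) ℤ, P ≠ 0 → P.totalDegree ≤ d →
    (∀ e : Fin n →₀ ℕ, |((coeff e P : ℤ) : ℝ)| ≤ H) →
    (M * N * H) ^ (-C) ≤ ‖aeval (fun k => (c k : ℂ) * ξ +
      Complex.log (1 + ((x k : ℂ) + (y k : ℂ) * Complex.I) / N)) P‖ :=
  Pool.Agent.H72.CC.pf_W (Pool.Agent.H72.CC.pf_V
    (Pool.Agent.H81.CC.pf_CCF Pool.Agent.H72.GP.tGIC))
    (Pool.Agent.H81.CC.pf_CCM Pool.Agent.H72.GP.tGIM)

end Pool.Agent.Results.MP_3cf473_nt.PrescribedLogarithm
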