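import Pool.Agent.H72.CLU.Local

/-!
# Logarithms of the integers of every short interval

For every `N ≥ N₁` and all complex numbers `ξ 1, ..., ξ r` there is a set `E` of at most `r + 1`
integers such that for ALL distinct integers `a 1, ..., a n` of `[N, N + N ^ s]` outside `E` there is
no integer polynomial `P(X, Y)` of total degree at most `d` with `P(ξ, Y) ≠ 0` and
`P(ξ, log a 1, ..., log a n) = 0`; and for every height `h` there is such a set for the lower bound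
`H ^ (-C)` of the problem at the heights from `h` to `h ^ A`, where `C` does not depend on `N`, `h`,
`ξ` and `a`. For `r = 0` there is only one exceptional integer.
-/

set_option autoImplicit false

namespace Pool.Agent.Results.MP_3cf473_nt.ShortIntervals

open MvPolynomial

theorem result : ∀ r n d : ℕ, ∃ (s : ℝ) (N₁ : ℕ), 0 < s ∧ ∀ A : ℝ, ∃ C : ℝ, 0 < C ∧
    ∀ N : ℕ, N₁ ≤ N → ∀ ξ : Fin r → ℂ,
    (∃ E : Finset ℕ, E.card ≤ r + 1 ∧ ∀ a : Fin n → ℕ, Function.Injective a →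
      (∀ i, a i ∉ E ∧ N ≤ a i ∧ (a i : ℝ) ≤ N + (N : ℝ) ^ s) →
      ∀ P : MvPolynomial (Fin r ⊕ Fin n) ℤ, P.totalDegree ≤ d →
        aeval (Sum.elim (fun i => MvPolynomial.C (ξ i)) X :
          Fin r ⊕ Fin n → MvPolynomial (Fin n) ℂ) P ≠ 0 →
        aeval (Sum.elim ξ (fun i => ((Real.log (a i) : ℝ) : ℂ))) P ≠ 0) ∧
    ∀ h : ℝ, 2 ≤ h → (N : ℝ) ≤ h → (∀ i, ‖ξ i‖ ≤ h ^ A) →
    ∃ E : Finset ℕ, E.card ≤ r + 1 ∧ ∀ a : Fin n → ℕ, Function.Injective a →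
      (∀ i, a i ∉ E ∧ N ≤ a i ∧ (a i : ℝ) ≤ N + (N : ℝ) ^ s) →
      ∀ H : ℝ, h ≤ H → H ≤ h ^ A →
      ∀ P : MvPolynomial (Fin r ⊕ Fin n) ℤ, P.totalDegree ≤ d →
        (∀ e : Fin r ⊕ Fin n →₀ ℕ, |((coeff e P : ℤ) : ℝ)| ≤ H) →
        (∃ e : Fin n →₀ ℕ,
          H ^ (-A) ≤ ‖coeff e (aeval (Sum.elim (fun i => MvPolynomial.C (ξ i)) X) P)‖) →
        H ^ (-C) ≤ ‖aeval (Sum.elim ξ (fun i => ((Real.log (a i) : ℝ) : ℂ))) P‖ := by
  intro r n d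
  obtain ⟨s, N₁, hs, h1⟩ := Pool.Agent.H72.CLU.localBoth r n d
  refine ⟨s, N₁, hs, fun A => ?_⟩
  obtain ⟨C, hC, h2⟩ := h1 A
  refine ⟨C, hC, fun N hN ξ => ⟨?_, fun h hh hNh hξ => ?_⟩⟩
  · obtain ⟨E, hE, h3⟩ := (h2 N hN ξ).1
    exact ⟨E, hE, fun a ha haE P hP hne => h3 a ha haE P hP hne⟩
  · obtain ⟨E, hE, h3⟩ := (h2 N hN ξ).2 h hh hNh hξ
    refine ⟨E, hE, fun a ha haE H hH1 hH2 P hP hPH hPA => ?_⟩
    by_contra hlt
    push Not at hlt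
    exact h3 a ha haE H hH1 hH2 ⟨P, hP, hPH, hlt, hPA⟩

end Pool.Agent.Results.MP_3cf473_nt.ShortIntervals
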